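import Mathlib
import Pool.Agent.MP_c60df9_co.H39.Spec

/-!
Linked branch decompositions, rooted form.
-/

namespace Pool.Agent.MP_c60df9_co.H19

open Pool.Agent.MP_c60df9_co.H39 Relation

variable {α : Type} [DecidableEq α]

/-- The sets displayed by the nodes. -/
def nodes : BT α → Multiset (Finset α)
  | .leaf F => {F}
  | .node l r => {l.set ∪ r.set} + nodes l + nodes r

/-- The parent-child pairs. -/
def pairs : BT α → Multiset (Finset α × Finset α)
  | .leaf _ => 0
  | .node l r => {(l.set ∪ r.set, l.set)} + {(l.set ∪ r.set, r.set)} + pairs l + pairs r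

/-- Apply a map to the leaves. -/
def mp (f : Finset α → Finset α) : BT α → BT α
  | .leaf F => .leaf (f F)
  | .node l r => .node (mp f l) (mp f r)

/-- The combinatorial half of validity. -/
def Shape : BT α → Prop
  | .leaf F => F.card ≤ 1
  | .node l r => Disjoint l.set r.set ∧ Shape l ∧ Shape r

theorem valid_iff {lam : Finset α → ℕ} {W : ℕ} {T : BT α} :
    T.Valid lam W ↔ Shape T ∧ ∀ x ∈ nodes T, lam x ≤ W := by
  induction T with
  | leaf F => simp [BT.Valid, Shape, nodes]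
  | node l r il ir =>
    simp only [BT.Valid, Shape, nodes, il, ir, Multiset.mem_add, Multiset.mem_singleton, or_imp,
      forall_and, forall_eq]
    tauto

theorem set_mem (T : BT α) : T.set ∈ nodes T := by
  cases T <;> simp [nodes, BT.set]

theorem node_sub {T : BT α} : ∀ x ∈ nodes T, x ⊆ T.set := by
  induction T with
  | leaf F => simp [nodes, BT.set]
  | node l r il ir =>
    simp only [nodes, Multiset.mem_add, Multiset.mem_singleton, BT.set]
    rintro x ((rfl | h) | h)
    · exact subset_rfl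
    · exact (il x h).trans Finset.subset_union_left
    · exact (ir x h).trans Finset.subset_union_right

theorem pair_mem {T : BT α} : ∀ y ∈ pairs T, y.1 ∈ nodes T ∧ y.2 ∈ nodes T := by
  induction T with
  | leaf F => simp [pairs]
  | node l r il ir =>
    simp only [pairs, nodes, Multiset.mem_add, Multiset.mem_singleton]
    rintro y (((rfl | rfl) | h) | h)
    · simp [set_mem]
    · simp [set_mem]
    · simp [il y h]
    · simp [ir y h]

theorem laminar {T : BT α} (h : Shape T) :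
    ∀ x ∈ nodes T, ∀ y ∈ nodes T, x ⊆ y ∨ y ⊆ x ∨ Disjoint x y := by
  induction T with
  | leaf F => simp [nodes]
  | node l r il ir =>
    intro x hx y hy
    have hx' := node_sub x hx
    have hy' := node_sub y hy
    simp only [nodes, Multiset.mem_add, Multiset.mem_singleton] at hx hy
    rcases hx with (rfl | hx) | hx
    · exact Or.inr (Or.inl hy')
    · rcases hy with (rfl | hy) | hy
      · exact Or.inl hx'
      · exact il h.2.1 x hx y hy
      · exact Or.inr (Or.inr (h.1.mono (node_sub x hx) (node_sub y hy)))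
    · rcases hy with (rfl | hy) | hy
      · exact Or.inl hx'
      · exact Or.inr (Or.inr (h.1.symm.mono (node_sub x hx) (node_sub y hy)))
      · exact ir h.2.2 x hx y hy

section Map

variable {f : Finset α → Finset α} (hf : ∀ a b, f (a ∪ b) = f a ∪ f b)
include hf

theorem set_mp (T : BT α) : (mp f T).set = f T.set := by
  induction T with
  | leaf F => rfl
  | node l r il ir => simp [mp, BT.set, il, ir, hf]

theorem nodes_mp (T : BT α) : nodes (mp f T) = (nodes T).map f := by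
  induction T with
  | leaf F => rfl
  | node l r il ir => simp [mp, nodes, il, ir, hf, set_mp hf]

theorem pairs_mp (T : BT α) : pairs (mp f T) = (pairs T).map (Prod.map f f) := by
  induction T with
  | leaf F => rfl
  | node l r il ir => simp [mp, pairs, il, ir, hf, set_mp hf]

theorem shape_mp (hs : ∀ a, f a ⊆ a) {T : BT α} (h : Shape T) : Shape (mp f T) := by
  induction T with
  | leaf F => exact (Finset.card_le_card (hs F)).trans h
  | node l r il ir =>
    refine ⟨?_, il h.2.1, ir h.2.2⟩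
    rw [set_mp hf, set_mp hf]
    exact h.1.mono (hs _) (hs _)

end Map

/-- The outer copy of a node. -/
def ou (U Y x : Finset α) : Finset α := if U ⊆ x then x ∪ Y else x \ Y

theorem ou_path {U Y x : Finset α} (h : U ⊆ x) : ou U Y x = x ∪ Y := if_pos h

theorem ou_hang {U Y x : Finset α} (hU : U.Nonempty) (h : Disjoint x U) : ou U Y x = x \ Y :=
  if_neg fun a => hU.ne_empty (by simpa using h.mono_left a)

/-- The data attached to a path from `v` down to `u`. -/
structure Dec (lam : Finset α → ℕ) (k : ℕ) (v u : BT α) (A : Multiset (Finset α))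
    (B : Multiset (Finset α × Finset α)) : Prop where
  nd : nodes v = A + nodes u
  pr : pairs v = B + pairs u
  sub : u.set ⊆ v.set
  kind : ∀ x ∈ A, u.set ⊆ x ∨ Disjoint x u.set
  mem : ∀ y ∈ B, y.1 ∈ A ∧ (y.2 ∈ A ∨ y.2 = u.set)
  brk : ∀ Q : Finset α → Prop, ¬Q v.set → Q u.set →
    ∃ y ∈ B, ¬Q y.1 ∧ Q y.2 ∧ k ≤ lam y.1 ∧ k ≤ lam y.2
  out : ∀ P : BT α, u.set ⊆ P.set → Shape P → ∃ v' : BT α, v'.set = v.set ∪ P.set ∧ Shape v' ∧
    nodes v' = A.map (ou u.set P.set) + nodes P ∧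
    pairs v' = B.map (Prod.map (ou u.set P.set) (ou u.set P.set)) + pairs P

theorem Dec.step {lam : Finset α → ℕ} {k : ℕ} {v l r u : BT α} {A : Multiset (Finset α)}
    {B : Multiset (Finset α × Finset α)} (h : Dec lam k l u A B) (hU : u.set.Nonempty)
    (e0 : v.set = l.set ∪ r.set) (e1 : nodes v = {v.set} + nodes l + nodes r)
    (e2 : pairs v = {(v.set, l.set)} + {(v.set, r.set)} + pairs l + pairs r)
    (hd : Disjoint l.set r.set) (hr : Shape r) (h1 : k ≤ lam v.set) (h2 : k ≤ lam l.set) :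
    Dec lam k v u ({v.set} + A + nodes r) ({(v.set, l.set)} + {(v.set, r.set)} + B + pairs r) := by
  have s1 : u.set ⊆ v.set := e0 ▸ h.sub.trans Finset.subset_union_left
  have s2 : ∀ x ∈ nodes r, Disjoint x u.set := fun x hx => hd.symm.mono (node_sub x hx) h.sub
  refine ⟨by rw [e1, h.nd]; abel, by rw [e2, h.pr]; abel, s1, ?_, ?_, fun Q q1 q2 => ?_,
    fun P p1 p2 => ?_⟩
  · simp only [Multiset.mem_add, Multiset.mem_singleton]
    rintro x ((rfl | a) | a)
    exacts [Or.inl s1, h.kind x a, Or.inr (s2 x a)]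
  · simp only [Multiset.mem_add, Multiset.mem_singleton]
    rintro y (((rfl | rfl) | a) | a)
    · have := set_mem l
      rw [h.nd, Multiset.mem_add] at this
      rcases this with b | b
      · simp [b]
      · simp [(node_sub _ b).antisymm h.sub]
    · simp [set_mem]
    · have := h.mem y a
      tauto
    · have := pair_mem y a
      tauto
  · by_cases q : Q l.set
    · exact ⟨(v.set, l.set), by simp, q1, q, h1, h2⟩
    · obtain ⟨y, a, b⟩ := h.brk Q q q2
      exact ⟨y, by simp [a], b⟩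
  · obtain ⟨l', a1, a2, a3, a4⟩ := h.out P p1 p2
    have hf : ∀ a b : Finset α, (a ∪ b) \ P.set = a \ P.set ∪ b \ P.set := fun a b =>
      Finset.union_sdiff_distrib _ _ _
    have b1 : (mp (· \ P.set) r).set = r.set \ P.set := set_mp hf r
    have b2 : l'.set ∪ r.set \ P.set = v.set ∪ P.set := by
      rw [a1, e0]
      ext z
      simp only [Finset.mem_union, Finset.mem_sdiff]
      tauto
    have b3 : (nodes r).map (· \ P.set) = (nodes r).map (ou u.set P.set) :=
      Multiset.map_congr rfl fun x hx => (ou_hang hU (s2 x hx)).symm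
    have b4 : (pairs r).map (Prod.map (· \ P.set) (· \ P.set)) =
        (pairs r).map (Prod.map (ou u.set P.set) (ou u.set P.set)) :=
      Multiset.map_congr rfl fun y hy => Prod.ext (ou_hang hU (s2 _ (pair_mem y hy).1)).symm
        (ou_hang hU (s2 _ (pair_mem y hy).2)).symm
    refine ⟨.node l' (mp (· \ P.set) r), by rw [BT.set, b1, b2],
      ⟨?_, a2, shape_mp hf (fun _ => Finset.sdiff_subset) hr⟩, ?_, ?_⟩
    · rw [a1, b1, Finset.disjoint_union_left]
      exact ⟨hd.mono_right Finset.sdiff_subset, Finset.disjoint_sdiff⟩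
    · rw [nodes, b1, b2, a3, nodes_mp hf, b3, Multiset.map_add, Multiset.map_add,
        Multiset.map_singleton, ou_path s1]
      abel
    · rw [pairs, b1, b2, a4, pairs_mp hf, b4, Multiset.map_add, Multiset.map_add, Multiset.map_add,
        Multiset.map_singleton, Multiset.map_singleton, Prod.map_apply, Prod.map_apply,
        ou_path s1, ou_path h.sub, ou_hang hU (s2 _ (set_mem r)), a1]
      abel

theorem exists_dec {lam : Finset α → ℕ} {k : ℕ} {v u : BT α} (hU : u.set.Nonempty)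
    (h : ReflTransGen (fun a b => BT.Ch a b ∧ k ≤ lam b.set) v u) :
    Shape v → k ≤ lam v.set → ∃ A B, Dec lam k v u A B := by
  induction h using ReflTransGen.head_induction_on with
  | refl =>
    exact fun _ _ => ⟨0, 0, by simp, by simp, subset_rfl, by simp, by simp,
      fun Q a b => absurd b a, fun P a b => ⟨P, (Finset.union_eq_right.2 a).symm, b, by simp, by simp⟩⟩
  | head hc _ ih =>
    obtain ⟨⟨l, r, rfl, rfl | rfl⟩, h2⟩ := hc
    · intro s h1
      obtain ⟨A, B, D⟩ := ih s.2.1 h2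
      exact ⟨_, _, D.step hU rfl rfl rfl s.1 s.2.2 h1 h2⟩
    · intro s h1
      obtain ⟨A, B, D⟩ := ih s.2.2 h2
      exact ⟨_, _, D.step hU (Finset.union_comm _ _) (by rw [nodes, BT.set]; abel)
        (by rw [pairs, BT.set]; abel) s.1.symm s.2.1 h1 h2⟩

/-- The weight of a pair at level `k`. -/
def wt (lam : Finset α → ℕ) (k : ℕ) (y : Finset α × Finset α) : ℕ :=
  if k ≤ lam y.1 ∧ k ≤ lam y.2 then 1 else 0

/-- The potential. -/
def pot (lam : Finset α → ℕ) (T : BT α) (i : ℕ) : ℕ :=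
  if i % 2 = 0 then ((pairs T).map (wt lam (i / 2))).sum
  else ((nodes T).map fun x => wt lam (i / 2) (x, x)).sum

/-- The lexicographic order from the top. -/
def Lt (M : ℕ) (g f : ℕ → ℕ) : Prop := ∃ j < M, g j < f j ∧ ∀ i, j < i → i < M → g i ≤ f i

theorem exists_min {β : Type} (f : β → ℕ → ℕ) (M : ℕ) : ∀ S : Set β, S.Nonempty →
    ∃ a ∈ S, ∀ b ∈ S, ¬Lt M (f b) (f a) := by
  induction M with
  | zero => exact fun S ⟨a, ha⟩ => ⟨a, ha, fun b _ ⟨j, hj, _⟩ => by omega⟩
  | succ M ih =>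
    intro S hS
    obtain ⟨a₀, h0, m0⟩ := (measure fun a => f a M).wf.has_min S hS
    obtain ⟨a, ⟨h1, h2⟩, m⟩ := ih {a ∈ S | f a M = f a₀ M} ⟨a₀, h0, rfl⟩
    refine ⟨a, h1, fun b hb ⟨j, j1, j2, j3⟩ => ?_⟩
    have m1 : ¬f b M < f a₀ M := m0 b hb
    by_cases e : j = M
    · subst e
      omega
    · have := j3 M (by omega) (by omega)
      exact m b ⟨hb, by omega⟩ ⟨j, by omega, j2, fun i a b => j3 i a (by omega)⟩

/-- Minimal decompositions. -/
def Min (lam : Finset α → ℕ) (W : ℕ) (T : BT α) : Prop :=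
  T.Valid lam W ∧ ∀ T' : BT α, T'.set = T.set → T'.Valid lam W →
    ¬Lt (2 * W + 2) (pot lam T') (pot lam T)

theorem pot_node (lam : Finset α → ℕ) : ∃ c : Finset α → Finset α → ℕ → ℕ,
    (∀ a b, c a b 1 = 1) ∧
    ∀ l r : BT α, ∀ i, pot lam (.node l r) i = pot lam l i + pot lam r i + c l.set r.set i := by
  refine ⟨fun a b i => if i % 2 = 0 then wt lam (i / 2) (a ∪ b, a) + wt lam (i / 2) (a ∪ b, b)
    else wt lam (i / 2) (a ∪ b, a ∪ b), fun a b => by simp [wt], fun l r i => ?_⟩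
  simp only [pot, pairs, nodes]
  split_ifs <;> simp only [Multiset.map_add, Multiset.sum_add, Multiset.map_singleton,
    Multiset.sum_singleton] <;> ring

variable {lam : Finset α → ℕ} {W : ℕ}

theorem Min.child {t u : BT α} (h : Min lam W t) (hc : BT.Ch t u) :
    Min lam W u ∧ u.set.Nonempty := by
  obtain ⟨c, c1, c2⟩ := pot_node lam
  obtain ⟨l, r, rfl, rfl | rfl⟩ := hc
  · obtain ⟨⟨v1, v2, v3, v4⟩, m⟩ := h
    refine ⟨⟨v3, fun T' e v ⟨j, j1, j2, j3⟩ => m (.node T' r) (by simp [BT.set, e])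
      ⟨e ▸ v1, e ▸ v2, v, v4⟩ ⟨j, j1, by rw [c2, c2, e]; omega, fun i a b => ?_⟩⟩,
      Finset.nonempty_iff_ne_empty.2 fun e => m r (by simp [BT.set, e]) v4
        ⟨1, by omega, by rw [c2, c1]; omega, fun i _ _ => by rw [c2]; omega⟩⟩
    have := j3 i a b
    rw [c2, c2, e]; omega
  · obtain ⟨⟨v1, v2, v3, v4⟩, m⟩ := h
    refine ⟨⟨v4, fun T' e v ⟨j, j1, j2, j3⟩ => m (.node l T') (by simp [BT.set, e])
      ⟨e ▸ v1, e ▸ v2, v3, v⟩ ⟨j, j1, by rw [c2, c2, e]; omega, fun i a b => ?_⟩⟩,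
      Finset.nonempty_iff_ne_empty.2 fun e => m l (by simp [BT.set, e]) v3
        ⟨1, by omega, by rw [c2, c1]; omega, fun i _ _ => by rw [c2]; omega⟩⟩
    have := j3 i a b
    rw [c2, c2, e]; omega

theorem Min.desc {t u : BT α} (h : Min lam W t) (hc : ReflTransGen BT.Ch t u) : Min lam W u := by
  induction hc with
  | refl => exact h
  | tail _ c ih => exact (ih.child c).1

/-- `Y` splits `w`. -/
def Spl (Y w : Finset α) : Prop := ¬w ⊆ Y ∧ ¬Disjoint w Y

instance (Y : Finset α) : DecidablePred (Spl Y) := fun _ => by unfold Spl; infer_instance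

theorem spl_lt {N : Multiset (Finset α)} {Y Y' w : Finset α} (hw : w ∈ N) (h : Spl Y w)
    (lm : ∀ x ∈ N, x ⊆ w ∨ w ⊆ x ∨ Disjoint x w) (e1 : w ⊆ Y' ∨ Disjoint w Y')
    (e2 : ∀ z, z ∉ w → (z ∈ Y' ↔ z ∈ Y)) :
    (N.toFinset.filter (Spl Y')).card < (N.toFinset.filter (Spl Y)).card := by
  refine Finset.card_lt_card ((Finset.ssubset_iff_of_subset fun x hx => ?_).2 ⟨w, ?_, ?_⟩)
  · obtain ⟨a, b⟩ := Finset.mem_filter.1 hx
    refine Finset.mem_filter.2 ⟨a, ?_⟩
    rcases lm x (Multiset.mem_toFinset.1 a) with c | c | c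
    · rcases e1 with d | d
      · exact absurd (c.trans d) b.1
      · exact absurd (d.mono_left c) b.2
    · exact ⟨fun d => h.1 (c.trans d), fun d => h.2 (d.mono_left c)⟩
    · have c' := Finset.disjoint_left.1 c
      exact ⟨fun d => b.1 fun z hz => (e2 z (c' hz)).2 (d hz), fun d => b.2
        (Finset.disjoint_left.2 fun z hz hz' =>
          Finset.disjoint_left.1 d hz ((e2 z (c' hz)).1 hz'))⟩
  · exact Finset.mem_filter.2 ⟨Multiset.mem_toFinset.2 hw, h⟩
  · exact fun a => e1.elim (Finset.mem_filter.1 a).2.1 (Finset.mem_filter.1 a).2.2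

theorem sum_two_le {β : Type} {A : Multiset β} {f g h : β → ℕ} (H : ∀ x ∈ A, f x + g x ≤ h x) :
    (A.map f).sum + (A.map g).sum ≤ (A.map h).sum := by
  rw [← Multiset.sum_map_add]
  exact Multiset.sum_map_le_sum_map _ _ H

theorem sum_two_lt {β : Type} {A : Multiset β} {f g h : β → ℕ} (H : ∀ x ∈ A, f x + g x ≤ h x)
    (H' : ∃ x ∈ A, f x + g x < h x) : (A.map f).sum + (A.map g).sum < (A.map h).sum := by
  rw [← Multiset.sum_map_add]
  exact Multiset.sum_lt_sum H H'

theorem Min.top (sm : ∀ X Y, lam (X ∩ Y) + lam (X ∪ Y) ≤ lam X + lam Y)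
    (pm : ∀ X Y, lam (X \ Y) + lam (Y \ X) ≤ lam X + lam Y) {t u : BT α} (h : Min lam W t)
    (hU : u.set.Nonempty) (hu : lam t.set ≤ lam u.set)
    (hp : ReflTransGen (fun a b => BT.Ch a b ∧ lam t.set ≤ lam b.set) t u) {Y₀ : Finset α}
    (y1 : u.set ⊆ Y₀) (y2 : Y₀ ⊆ t.set) : lam t.set ≤ lam Y₀ := by
  by_contra hlt
  obtain ⟨sh, hW⟩ := valid_iff.1 h.1
  obtain ⟨A, B, D⟩ := exists_dec hU hp sh le_rfl
  obtain ⟨Y₁, ⟨y3, y4⟩, m1⟩ := (measure lam).wf.has_min {Y | u.set ⊆ Y ∧ Y ⊆ t.set} ⟨Y₀, y1, y2⟩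
  obtain ⟨Y, ⟨y5, y6, y7⟩, m2⟩ :=
    (measure fun Y => ((nodes t).toFinset.filter (Spl Y)).card).wf.has_min
      {Y | u.set ⊆ Y ∧ Y ⊆ t.set ∧ lam Y = lam Y₁} ⟨Y₁, y3, y4, rfl⟩
  have m3 : ∀ Z, u.set ⊆ Z → Z ⊆ t.set → lam Y ≤ lam Z := fun Z a b =>
    y7 ▸ not_lt.1 (m1 Z ⟨a, b⟩)
  have lt : lam Y < lam t.set := (m3 _ y1 y2).trans_lt (not_le.1 hlt)
  have hA : ∀ x ∈ A, x ∈ nodes t := fun x hx => D.nd ▸ Multiset.mem_add.2 (Or.inl hx)
  have np : ∀ x ∈ A, lam (ou u.set Y x) ≤ lam x ∧ lam (x ∩ Y) ≤ lam x ∧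
      ((lam (ou u.set Y x) < lam x ∧ lam (x ∩ Y) < lam x) ∨ lam (ou u.set Y x) ≤ lam Y ∨
        lam (x ∩ Y) ≤ lam Y) := fun x hx => by
    have s := node_sub x (hA x hx)
    have a1 := sm x Y
    have a2 := m3 (x ∪ Y) (y5.trans Finset.subset_union_right) (Finset.union_subset s y6)
    rcases D.kind x hx with a | a
    · have a3 := m3 (x ∩ Y) (Finset.subset_inter a y5) (Finset.inter_subset_right.trans y6)
      rw [ou_path a]
      omega
    · have b1 : u.set ⊆ Y \ x := Finset.subset_sdiff.2 ⟨y5, a.symm⟩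
      have a3 := m3 (Y \ x) b1 (Finset.sdiff_subset.trans y6)
      have a4 := pm x Y
      have a5 := pm Y Y
      rw [ou_hang hU a]
      refine ⟨by omega, by omega, ?_⟩
      by_cases sp : Spl Y x
      · have lm := fun z hz => laminar sh z hz x (hA x hx)
        refine Or.inl ⟨lt_of_not_ge fun b => m2 (Y \ x) ⟨b1, Finset.sdiff_subset.trans y6, by omega⟩
          (spl_lt (hA x hx) sp lm (Or.inr Finset.disjoint_sdiff) fun z hz => by simp [hz]),
          lt_of_not_ge fun b => m2 (x ∪ Y) ⟨y5.trans Finset.subset_union_right,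
            Finset.union_subset s y6, by omega⟩
          (spl_lt (hA x hx) sp lm (Or.inl Finset.subset_union_left) fun z hz => by simp [hz])⟩
      · rw [Finset.sdiff_self] at a5
        rcases not_and_or.1 sp with b | b
        · rw [Finset.sdiff_eq_empty_iff_subset.2 (not_not.1 b)]
          omega
        · rw [Finset.disjoint_iff_inter_eq_empty.1 (not_not.1 b)]
          omega
  have hf : ∀ a b : Finset α, (a ∪ b) ∩ Y = a ∩ Y ∪ b ∩ Y := fun a b =>
    Finset.union_inter_distrib_right _ _ _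
  have eP : (mp (· ∩ Y) t).set = Y := (set_mp hf t).trans (Finset.inter_eq_right.2 y6)
  obtain ⟨t', t1, t2, t3, t4⟩ := D.out (mp (· ∩ Y) t) (eP.symm ▸ y5)
    (shape_mp hf (fun _ => Finset.inter_subset_left) sh)
  have u1 : ∀ x ∈ nodes u, x ∩ Y = x := fun x hx =>
    Finset.inter_eq_left.2 ((node_sub x hx).trans y5)
  have u2 : (nodes u).map (· ∩ Y) = nodes u := (Multiset.map_congr rfl u1).trans (by simp)
  have u3 : (pairs u).map (Prod.map (· ∩ Y) (· ∩ Y)) = pairs u :=
    (Multiset.map_congr (g := fun y => y) rfl fun y hy =>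
      Prod.ext (u1 _ (pair_mem y hy).1) (u1 _ (pair_mem y hy).2)).trans (by simp)
  rw [eP, Finset.union_eq_left.2 y6] at t1
  rw [eP, nodes_mp hf, D.nd, Multiset.map_add, u2] at t3
  rw [eP, pairs_mp hf, D.pr, Multiset.map_add, u3] at t4
  have val : t'.Valid lam W := valid_iff.2 ⟨t2, fun x hx => by
    simp only [t3, Multiset.mem_add, Multiset.mem_map] at hx
    rcases hx with ⟨z, hz, rfl⟩ | ⟨z, hz, rfl⟩ | hx
    · exact (np z hz).1.trans (hW z (hA z hz))
    · exact (np z hz).2.1.trans (hW z (hA z hz))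
    · exact hW x (D.nd ▸ Multiset.mem_add.2 (Or.inr hx))⟩
  have ouU : ou u.set Y u.set = Y := (ou_path subset_rfl).trans (Finset.union_eq_right.2 y5)
  have good : ∀ k, lam Y < k →
      (∀ x ∈ A, lam (ou u.set Y x) < lam x → lam (x ∩ Y) < lam x → lam x ≤ k) →
      ∀ x ∈ A, ∀ x', (x' ∈ A ∨ x' = u.set) → wt lam k (ou u.set Y x, ou u.set Y x') +
        wt lam k (x ∩ Y, x' ∩ Y) ≤ wt lam k (x, x') := fun k k1 k2 x hx x' hx' => by
    have a1 := np x hx
    have a2 := k2 x hx
    have a3 : lam (ou u.set Y x') ≤ lam x' ∧ lam (x' ∩ Y) ≤ lam x' := by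
      rcases hx' with b | rfl
      · exact ⟨(np x' b).1, (np x' b).2.1⟩
      · rw [ouU, u1 _ (set_mem u)]
        omega
    simp only [wt]
    split_ifs <;> omega
  have le : ∀ i, lam Y < i / 2 →
      (∀ x ∈ A, lam (ou u.set Y x) < lam x → lam (x ∩ Y) < lam x → lam x ≤ i / 2) →
      pot lam t' i ≤ pot lam t i := fun i k1 k2 => by
    simp only [pot, t3, t4, D.nd, D.pr, Multiset.map_add, Multiset.sum_add, Multiset.map_map]
    split_ifs
    · rw [← add_assoc]
      exact Nat.add_le_add_right (sum_two_le fun y hy =>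
        good _ k1 k2 _ (D.mem y hy).1 _ (D.mem y hy).2) _
    · rw [← add_assoc]
      exact Nat.add_le_add_right (sum_two_le fun x hx => good _ k1 k2 _ hx _ (Or.inl hx)) _
  refine h.2 t' t1 val ?_
  by_cases c : ∃ x ∈ A, lam (ou u.set Y x) < lam x ∧ lam (x ∩ Y) < lam x ∧ lam Y < lam x
  · obtain ⟨x₀, c0⟩ := c
    obtain ⟨x, hx, mx⟩ := Finset.exists_max_image (A.toFinset.filter fun x =>
      lam (ou u.set Y x) < lam x ∧ lam (x ∩ Y) < lam x ∧ lam Y < lam x) lam ⟨x₀, by simpa using c0⟩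
    simp only [Finset.mem_filter, Multiset.mem_toFinset] at hx mx
    have k2 : ∀ z ∈ A, lam (ou u.set Y z) < lam z → lam (z ∩ Y) < lam z → lam z ≤ lam x :=
      fun z a b d => by
        by_cases e : lam Y < lam z
        · exact mx z ⟨a, b, d, e⟩
        · omega
    have := hW x (hA x hx.1)
    refine ⟨2 * lam x + 1, by omega, ?_, fun i a _ => le i (by omega) fun z b d e =>
      (k2 z b d e).trans (by omega)⟩
    have e1 : (2 * lam x + 1) % 2 ≠ 0 := by omega
    have e2 : (2 * lam x + 1) / 2 = lam x := by omega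
    simp only [pot, t3, D.nd, Multiset.map_add, Multiset.sum_add, Multiset.map_map, if_neg e1, e2]
    rw [← add_assoc]
    refine Nat.add_lt_add_right (sum_two_lt (fun z hz => good _ hx.2.2.2 k2 _ hz _ (Or.inl hz))
      ⟨x, hx.1, ?_⟩) _
    simp only [wt]
    split_ifs <;> omega
  · have k2 : ∀ z ∈ A, lam (ou u.set Y z) < lam z → lam (z ∩ Y) < lam z → lam z ≤ lam Y :=
      fun z a b d => not_lt.1 fun e => c ⟨z, a, b, d, e⟩
    have := hW _ (set_mem t)
    refine ⟨2 * (lam Y + 1), by omega, ?_, fun i a _ => le i (by omega) fun z b d e =>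
      (k2 z b d e).trans (by omega)⟩
    have e1 : 2 * (lam Y + 1) % 2 = 0 := by omega
    have e2 : 2 * (lam Y + 1) / 2 = lam Y + 1 := by omega
    obtain ⟨y, b1, b2, b3, b4, b5⟩ := D.brk (fun x => lam (ou u.set Y x) ≤ lam Y)
      (by rw [ou_path D.sub, Finset.union_eq_left.2 y6]; omega) (by rw [ouU])
    simp only [pot, t4, D.pr, Multiset.map_add, Multiset.sum_add, Multiset.map_map, if_pos e1, e2]
    rw [← add_assoc]
    refine Nat.add_lt_add_right (sum_two_lt (fun z hz => good _ (by omega)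
      (fun z b d e => (k2 z b d e).trans (by omega)) _ (D.mem z hz).1 _ (D.mem z hz).2)
      ⟨y, b1, ?_⟩) _
    have a1 := np _ (D.mem y b1).1
    have a2 := k2 _ (D.mem y b1).1
    simp only [wt]
    split_ifs <;> omega

theorem itemA : ItemA := by
  intro α _ lam W sm pm T hT
  obtain ⟨T', ⟨h1, h2⟩, m⟩ := exists_min (pot lam) (2 * W + 2)
    {T' : BT α | T'.set = T.set ∧ T'.Valid lam W} ⟨T, rfl, hT⟩
  have hm : Min lam W T' := ⟨h2, fun S a b => m S ⟨a.trans h1, b⟩⟩
  refine ⟨T', h1, h2, fun t ht => ⟨fun u c => ((hm.desc ht).child c).2, fun u hu Y y1 y2 => ?_⟩⟩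
  rcases hu.cases_tail with rfl | ⟨c, c1, c2, c3⟩
  · rw [y1.antisymm y2]
  · exact (hm.desc ht).top sm pm
      (((hm.desc ht).desc (ReflTransGen.mono (fun _ _ a => a.1) _ _ c1)).child c2).2 c3 hu y1 y2

end Pool.Agent.MP_c60df9_co.H19
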