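import Mathlib
import Pool.Agent.MP_c60df9_co.H39.Spec2

/-!
Balanced separators give branch decompositions; a well linked set gives a good cut.
-/

namespace Pool.Agent.MP_c60df9_co.H19

open Pool.Agent.MP_c60df9_co.H39

variable {V : Type} {G : SimpleGraph V}

/-- Every large set has a balanced separator. -/
def Sep (G : SimpleGraph V) (q : ℕ) : Prop :=
  ∀ S : Set V, 3 * q < S.ncard → ∃ A Z, Cut G A Z ∧ Z.ncard ≤ q ∧
    3 * (S ∩ (A \ Z)).ncard ≤ 2 * S.ncard ∧ 3 * (S \ A).ncard ≤ 2 * S.ncard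

/-- The boundary of a set of darts. -/
def bd (G : SimpleGraph V) (F : Finset (V × V)) : Set V :=
  {v | (∃ p ∈ F, v = p.1 ∨ v = p.2) ∧ ∃ p : V × V, G.Adj p.1 p.2 ∧ p ∉ F ∧ (v = p.1 ∨ v = p.2)}

theorem lam_eq (F : Finset (V × V)) : lam G ∅ F = (bd G F).ncard := by simp [lam, bd]

theorem ncard_le_add [Finite V] {S A B : Set V} (h : S ⊆ A ∪ B) : S.ncard ≤ A.ncard + B.ncard :=
  (Set.ncard_le_ncard h).trans (Set.ncard_union_le _ _)

theorem ncard_ends (p : V × V) : ({p.1, p.2} : Set V).ncard ≤ 2 := by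
  simpa using Set.ncard_insert_le p.1 {p.2}

theorem exists_tree [Finite V] [DecidableEq V] {q : ℕ} (h : Sep G q) (n : ℕ) :
    ∀ F : Finset (V × V), F.card ≤ n → (∀ p ∈ F, G.Adj p.1 p.2) → lam G ∅ F ≤ 3 * q + 2 →
      ∃ T : BT (V × V), T.set = F ∧ T.Valid (lam G ∅) (3 * q + 2) := by
  classical
  induction n with
  | zero => exact fun F a _ c => ⟨.leaf F, rfl, by omega, c⟩
  | succ n ih =>
    intro F a b c
    have join : ∀ F₁ F₂ : Finset (V × V), F₁ ∪ F₂ = F → Disjoint F₁ F₂ → F₁ ≠ F → F₂ ≠ F →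
        lam G ∅ F₁ ≤ 3 * q + 2 → lam G ∅ F₂ ≤ 3 * q + 2 →
        ∃ T : BT (V × V), T.set = F ∧ T.Valid (lam G ∅) (3 * q + 2) := by
      intro F₁ F₂ e d n1 n2 l1 l2
      have s1 : F₁ ⊆ F := e ▸ Finset.subset_union_left
      have s2 : F₂ ⊆ F := e ▸ Finset.subset_union_right
      have c1 := Finset.card_lt_card (Finset.ssubset_iff_subset_ne.2 ⟨s1, n1⟩)
      have c2 := Finset.card_lt_card (Finset.ssubset_iff_subset_ne.2 ⟨s2, n2⟩)
      obtain ⟨T₁, rfl, v1⟩ := ih F₁ (by omega) (fun p hp => b p (s1 hp)) l1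
      obtain ⟨T₂, rfl, v2⟩ := ih F₂ (by omega) (fun p hp => b p (s2 hp)) l2
      exact ⟨.node T₁ T₂, e, d, e ▸ c, v1, v2⟩
    by_cases h1 : F.card ≤ 1
    · exact ⟨.leaf F, rfl, h1, c⟩
    simp only [lam_eq] at c join
    by_cases h2 : (bd G F).ncard ≤ 3 * q
    · obtain ⟨p, hp⟩ := Finset.card_pos.1 (by omega : 0 < F.card)
      have := ncard_ends p
      refine join {p} (F.erase p) (by simp [hp]) (by simp) (fun e => h1 (by simp [← e]))
        (by simp [hp]) ?_ ?_
      · refine (Set.ncard_le_ncard (t := {p.1, p.2}) ?_).trans (by omega)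
        rintro v ⟨⟨p', hp', hv⟩, -⟩
        rw [Finset.mem_singleton.1 hp'] at hv
        exact hv
      · refine (ncard_le_add (A := bd G F) (B := {p.1, p.2}) ?_).trans (by omega)
        rintro v ⟨⟨p', hp', hv⟩, r, r1, r2, r3⟩
        by_cases e : r = p
        · exact Or.inr (e ▸ r3)
        · exact Or.inl ⟨⟨p', Finset.mem_of_mem_erase hp', hv⟩, r, r1,
            fun a => r2 (Finset.mem_erase.2 ⟨e, a⟩), r3⟩
    obtain ⟨A, Z, hc, z, b1, b2⟩ := h _ (not_le.1 h2)
    have out : ∀ p ∈ F, ¬(p.1 ∈ A ∧ p.2 ∈ A) → ∀ v, v = p.1 ∨ v = p.2 → v ∈ A → v ∈ Z := by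
      rintro p hp hn v (rfl | rfl) hv <;> by_contra hz
      · exact hn ⟨hv, hc.cl _ hv hz _ (b p hp)⟩
      · exact hn ⟨hc.cl _ hv hz _ (b p hp).symm, hv⟩
    have ins : ∀ p : V × V, p.1 ∈ A ∧ p.2 ∈ A → ∀ v, v = p.1 ∨ v = p.2 → v ∈ A := by
      rintro p hp v (rfl | rfl)
      exacts [hp.1, hp.2]
    refine join (F.filter fun p => p.1 ∈ A ∧ p.2 ∈ A) (F.filter fun p => ¬(p.1 ∈ A ∧ p.2 ∈ A))
      (Finset.filter_union_filter_not_eq _ _) (Finset.disjoint_filter_filter_not _ _ _)
      (fun e => ?_) (fun e => ?_) ?_ ?_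
    · have : (bd G F).ncard ≤ (bd G F ∩ (A \ Z)).ncard + Z.ncard := ncard_le_add fun v hv => by
        obtain ⟨p, hp, e'⟩ := hv.1
        by_cases hz : v ∈ Z
        · exact Or.inr hz
        · exact Or.inl ⟨hv, ins p (Finset.filter_eq_self.1 e p hp) v e', hz⟩
      omega
    · have : (bd G F).ncard ≤ (bd G F \ A).ncard + Z.ncard := ncard_le_add fun v hv => by
        obtain ⟨p, hp, e'⟩ := hv.1
        by_cases hz : v ∈ A
        · exact Or.inr (out p hp (Finset.filter_eq_self.1 e p hp) v e' hz)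
        · exact Or.inl ⟨hv, hz⟩
      omega
    · refine (ncard_le_add (A := bd G F ∩ (A \ Z)) (B := Z) ?_).trans (by omega)
      rintro v ⟨⟨p, hp, hv⟩, r, r1, r2, r3⟩
      obtain ⟨p1, p2⟩ := Finset.mem_filter.1 hp
      have hA := ins p p2 v hv
      by_cases hz : v ∈ Z
      · exact Or.inr hz
      · exact Or.inl ⟨⟨⟨p, p1, hv⟩, r, r1, fun a =>
          hz (out r a (fun e => r2 (Finset.mem_filter.2 ⟨a, e⟩)) v r3 hA), r3⟩, hA, hz⟩
    · refine (ncard_le_add (A := bd G F \ A) (B := Z) ?_).trans (by omega)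
      rintro v ⟨⟨p, hp, hv⟩, r, r1, r2, r3⟩
      obtain ⟨p1, p2⟩ := Finset.mem_filter.1 hp
      by_cases hA : v ∈ A
      · exact Or.inr (out p p1 p2 v hv hA)
      · exact Or.inl ⟨⟨⟨p, p1, hv⟩, r, r1, fun a =>
          r2 (Finset.mem_filter.2 ⟨a, fun e => hA (ins r e v r3)⟩), r3⟩, hA⟩

theorem bw_of_sep [Finite V] [DecidableEq V] {q : ℕ} (h : Sep G q) : BW G (3 * q + 2) := by
  classical
  have := Fintype.ofFinite V
  obtain ⟨T, e, v⟩ := exists_tree h _ (Finset.univ.filter fun p : V × V => G.Adj p.1 p.2) le_rfl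
    (by simp) (by
      have : bd G (Finset.univ.filter fun p : V × V => G.Adj p.1 p.2) = ∅ := by
        ext v
        simp only [bd, Finset.mem_filter, Finset.mem_univ, true_and, Set.mem_ofPred_eq]
        tauto
      simp [lam_eq, this])
  exact ⟨T, by simp [e], v⟩

/-- The complement of `A` contains most of `S`. -/
def Big (S A : Set V) : Prop := 2 * S.ncard < 3 * (S \ A).ncard

/-- A set without balanced separators. -/
structure Tang (G : SimpleGraph V) (q : ℕ) (S : Set V) : Prop where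
  pos : 0 < S.ncard
  alt : ∀ A Z, Cut G A Z → Z.ncard ≤ q → Big S A ∨ Big S (A \ Z)ᶜ

theorem exists_tang {q : ℕ} (h : ¬Sep G q) : ∃ S, Tang G q S := by
  unfold Sep at h
  push Not at h
  obtain ⟨S, h1, h2⟩ := h
  refine ⟨S, by omega, fun A Z a b => ?_⟩
  have := h2 A Z a b
  simp only [Big, Set.sdiff_compl]
  omega

theorem Big.mono [Finite V] {S A B : Set V} (h : Big S B) (hAB : A ⊆ B) : Big S A := by
  have : (S \ B).ncard ≤ (S \ A).ncard := Set.ncard_le_ncard (Set.sdiff_subset_sdiff_right hAB)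
  unfold Big at *
  omega

theorem Big.three [Finite V] {S A B C : Set V} (a : Big S A) (b : Big S B) (c : Big S C) :
    ∃ v, v ∉ A ∧ v ∉ B ∧ v ∉ C := by
  by_contra h
  have e1 := Set.ncard_inter_add_ncard_sdiff_eq_ncard S A
  have e2 := Set.ncard_inter_add_ncard_sdiff_eq_ncard S B
  have e3 : (S \ C).ncard ≤ (S ∩ A).ncard + (S ∩ B).ncard := ncard_le_add fun v hv => by
    by_contra h'
    exact h ⟨v, fun x => h' (Or.inl ⟨hv.1, x⟩), fun x => h' (Or.inr ⟨hv.1, x⟩), hv.2⟩
  unfold Big at *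
  omega

/-- Big cuts that cannot be pushed to a smaller order. -/
structure Good (G : SimpleGraph V) (S A Z : Set V) : Prop where
  cut : Cut G A Z
  big : Big S A
  min : ∀ D Y, Cut G D Y → Nest A Z D Y → Big S D → Z.ncard ≤ Y.ncard

/-- A path of connected sets through the points `a i`. -/
structure PM (G : SimpleGraph V) (A : Set V) (w : ℕ) (a : ℕ → V) (T : ℕ → Set V) : Prop where
  mem : ∀ i < w, a i ∈ T i
  sub : ∀ i < w, T i ⊆ A
  conn : ∀ i < w, Conn G (T i)
  disj : ∀ i < w, ∀ j < w, i ≠ j → Disjoint (T i) (T j)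
  touch : ∀ i, i + 1 < w → Touch G (T i) (T (i + 1))

theorem PM.eq {A : Set V} {w : ℕ} {a : ℕ → V} {T : ℕ → Set V} (h : PM G A w a T) {i j : ℕ}
    (hi : i < w) (hj : j < w) (e : a i ∈ T j) : i = j := by
  by_contra n
  exact Set.disjoint_left.1 (h.disj i hi j hj n) (h.mem i hi) e

theorem PM.inj {A : Set V} {w : ℕ} {a : ℕ → V} {T : ℕ → Set V} (h : PM G A w a T) :
    Set.InjOn a (Set.Iio w) := fun _ hi j hj e => h.eq hi hj (e ▸ h.mem j hj)

theorem PM.card {A : Set V} {w : ℕ} {a : ℕ → V} {T : ℕ → Set V} (h : PM G A w a T) :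
    (a '' Set.Iio w).ncard = w := by
  rw [h.inj.ncard_image, ← Finset.coe_range, Set.ncard_coe_finset, Finset.card_range]

theorem exists_good [Finite V] {q : ℕ} {S : Set V} (h : Tang G q S) (w : ℕ) : w ≤ q →
    ∃ A a T, Good G S A (a '' Set.Iio w) ∧ PM G A w a T := by
  classical
  induction w with
  | zero =>
    intro _
    obtain ⟨v, -⟩ := (Set.ncard_pos).1 h.pos
    have := h.pos
    refine ⟨∅, fun _ => v, fun _ => ∅, ⟨⟨by simp, by simp⟩, by simp only [Big, Set.sdiff_empty]; omega,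
      by simp⟩, ?_⟩
    constructor <;> simp
  | succ w ih =>
    intro hw
    obtain ⟨A, ⟨a, T, g, m⟩, mx⟩ := (Set.toFinite
      {A | ∃ a T, Good G S A (a '' Set.Iio w) ∧ PM G A w a T}).exists_maximal (ih (by omega))
    obtain ⟨y, yA, hy⟩ : ∃ y, y ∉ A ∧ ∀ i, i + 1 = w → G.Adj (a i) y := by
      rcases w with _ | w
      · obtain ⟨v, hv, -⟩ := g.big.three g.big g.big
        exact ⟨v, hv, by simp⟩
      · by_contra hn
        have c : Cut G A (a '' Set.Iio w) := by
          refine ⟨(Set.image_mono (Set.Iio_subset_Iio w.le_succ)).trans g.cut.sub,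
            fun u hu hz v huv => ?_⟩
          by_cases e : u = a w
          · by_contra hv
            exact hn ⟨v, hv, fun i hi => by rw [show i = w by omega, ← e]; exact huv⟩
          · refine g.cut.cl u hu ?_ v huv
            rintro ⟨i, hi, rfl⟩
            rcases Nat.lt_succ_iff_lt_or_eq.1 hi with b | rfl
            · exact hz ⟨i, b, rfl⟩
            · exact e rfl
        have := g.min A _ c ⟨subset_rfl, fun v hv _ =>
          Set.image_mono (Set.Iio_subset_Iio w.le_succ) hv⟩ g.big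
        rw [m.card, (m.inj.mono (Set.Iio_subset_Iio w.le_succ)).ncard_image, ← Finset.coe_range,
          Set.ncard_coe_finset, Finset.card_range] at this
        omega
    have yZ : y ∉ a '' Set.Iio w := fun b => yA (g.cut.sub b)
    have c1 : Cut G (insert y A) (insert y (a '' Set.Iio w)) :=
      ⟨Set.insert_subset_insert g.cut.sub, fun u hu hz v huv => Or.inr
        (g.cut.cl u (hu.resolve_left fun e => hz (Or.inl e)) (fun e => hz (Or.inr e)) v huv)⟩
    have k1 : (insert y (a '' Set.Iio w)).ncard = w + 1 := by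
      rw [Set.ncard_insert_of_notMem yZ, m.card]
    have n1 : Nest A (a '' Set.Iio w) (insert y A) (insert y (a '' Set.Iio w)) :=
      ⟨Set.subset_insert _ _, fun v hv hA => hv.resolve_left fun e => yA (e ▸ hA)⟩
    have b1 : Big S (insert y A) := (h.alt _ _ c1 (by omega)).resolve_right fun b => by
      obtain ⟨v, v1, v2, -⟩ := g.big.three b b
      rw [Set.notMem_compl_iff] at v2
      exact v1 (v2.1.resolve_left fun e => v2.2 (Or.inl e))
    by_cases gd : Good G S (insert y A) (insert y (a '' Set.Iio w))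
    · have e : Function.update a w y '' Set.Iio (w + 1) = insert y (a '' Set.Iio w) := by
        rw [show Set.Iio (w + 1) = insert w (Set.Iio w) by
          ext i; simp, Set.image_insert_eq, Function.update_self]
        congr 1
        exact Set.image_congr fun i hi => Function.update_of_ne (ne_of_lt hi) _ _
      have up : ∀ i < w, Function.update T w {y} i = T i := fun i hi =>
        Function.update_of_ne (ne_of_lt hi) _ _
      have dj : ∀ i < w, Disjoint (T i) {y} := fun i hi =>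
        Set.disjoint_singleton_right.2 fun b => yA (m.sub i hi b)
      refine ⟨_, Function.update a w y, Function.update T w {y}, e ▸ gd, fun i hi => ?_,
        fun i hi => ?_, fun i hi => ?_, fun i hi j hj ne => ?_, fun i hi => ?_⟩
      · rcases Nat.lt_succ_iff_lt_or_eq.1 hi with b | rfl
        · rw [up i b, Function.update_of_ne (ne_of_lt b)]; exact m.mem i b
        · simp
      · rcases Nat.lt_succ_iff_lt_or_eq.1 hi with b | rfl
        · rw [up i b]; exact (m.sub i b).trans (Set.subset_insert _ _)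
        · simp
      · rcases Nat.lt_succ_iff_lt_or_eq.1 hi with b | rfl
        · rw [up i b]; exact m.conn i b
        · simpa using Conn.singleton G y
      · rcases Nat.lt_succ_iff_lt_or_eq.1 hi with b | rfl <;>
          rcases Nat.lt_succ_iff_lt_or_eq.1 hj with b' | rfl
        · rw [up i b, up j b']; exact m.disj i b j b' ne
        · rw [up i b, Function.update_self]; exact dj i b
        · rw [up j b', Function.update_self]; exact (dj j b').symm
        · exact absurd rfl ne
      · rw [up i (by omega)]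
        rcases Nat.lt_succ_iff_lt_or_eq.1 hi with b | rfl
        · rw [up _ b]; exact m.touch i b
        · rw [Function.update_self]
          exact ⟨a i, m.mem i (by omega), y, rfl, hy i rfl⟩
    · exfalso
      obtain ⟨D, Y, d1, d2, d3, d4⟩ : ∃ D Y, Cut G D Y ∧
          Nest (insert y A) (insert y (a '' Set.Iio w)) D Y ∧ Big S D ∧ Y.ncard < w + 1 := by
        by_contra hn
        exact gd ⟨c1, b1, fun D Y x1 x2 x3 => k1 ▸ not_lt.1 fun x4 => hn ⟨D, Y, x1, x2, x3, x4⟩⟩
      have n2 := n1.trans d2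
      have k2 : Y.ncard = (a '' Set.Iio w).ncard := by
        have := g.min D Y d1 n2 d3
        rw [m.card] at this ⊢
        omega
      obtain ⟨τ, ⟨Q, q1, q2⟩, im⟩ := menger g.cut d1 n2 k2 fun D' Z' x1 x2 x3 =>
        g.min D' Z' x1 x2 (d3.mono x3.sub)
      have q3 : ∀ i < w, _ := fun i hi => q1 (a i) ⟨i, hi, rfl⟩
      have q4 : ∀ i < w, ∀ j < w, i ≠ j → Disjoint (Q (a i)) (Q (a j)) := fun i hi j hj ne =>
        q2 _ ⟨i, hi, rfl⟩ _ ⟨j, hj, rfl⟩ fun e => ne (m.inj hi hj e)
      have q5 : ∀ i < w, ∀ j < w, i ≠ j → Disjoint (T i) (Q (a j)) := fun i hi j hj ne => by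
        refine Set.disjoint_left.2 fun v v1 v2 => ?_
        rcases (q3 j hj).2.2.2.2 v2 with b | ⟨l, hl, rfl⟩
        · exact b.2 (m.sub i hi v1)
        · obtain rfl := m.eq hl hi v1
          exact Set.disjoint_left.1 (q4 l hi j hj ne) (q3 l hi).2.1 v2
      refine yA (mx (y := D) ⟨τ ∘ a, fun i => T i ∪ Q (a i), ?_, fun i hi => Or.inr (q3 i hi).2.2.1,
        fun i hi => Set.union_subset ((m.sub i hi).trans n2.sub) fun v hv => ?_,
        fun i hi => (m.conn i hi).union (q3 i hi).1 (m.mem i hi) (q3 i hi).2.1,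
        fun i hi j hj ne => ?_, fun i hi => (m.touch i hi).mono Set.subset_union_left
          Set.subset_union_left⟩ n2.sub (d2.sub (Set.mem_insert _ _)))
      · rw [Set.image_comp, im]
        exact ⟨d1, d3, fun D' Y' x1 x2 x3 => k2 ▸ g.min D' Y' x1 (n2.trans x2) x3⟩
      · rcases (q3 i hi).2.2.2.2 hv with b | b
        · exact b.1
        · exact n2.sub (g.cut.sub b)
      · rw [Set.disjoint_union_left, Set.disjoint_union_right, Set.disjoint_union_right]
        exact ⟨⟨m.disj i hi j hj ne, q5 i hi j hj ne⟩, (q5 j hj i hi ne.symm).symm, q4 i hi j hj ne⟩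

end Pool.Agent.MP_c60df9_co.H19
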