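import Mathlib
import Pool.Agent.MP_c60df9_co.H19.ItemC1

/-!
Large branch-width forces a minor with two hubs over a connected graph.
-/

namespace Pool.Agent.MP_c60df9_co.H19

open Pool.Agent.MP_c60df9_co.H39

variable {V : Type} {G : SimpleGraph V}

/-- The graph restricted to a set. -/
def res (G : SimpleGraph V) (B : Set V) : SimpleGraph V where
  Adj u v := G.Adj u v ∧ u ∈ B ∧ v ∈ B
  symm := ⟨fun _ _ h => ⟨h.1.symm, h.2.2, h.2.1⟩⟩
  loopless := ⟨fun _ h => h.1.ne rfl⟩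

/-- A link from `u` to `t` with interior `M` outside `A`. -/
def Link (G : SimpleGraph V) (A : Set V) (u t : V) (M : Set V) : Prop :=
  Disjoint M A ∧ ((G.Adj u t ∧ M = ∅) ∨ (Conn G M ∧ Touch G M {u} ∧ Touch G M {t}))

theorem exists_link {A Q : Set V} {u t : V} (h : Conn G Q) (hu : u ∈ Q) (ht : t ∈ Q) (ne : u ≠ t)
    (hA : ∀ v ∈ Q, v ∈ A → v = u ∨ v = t) (tA : t ∈ A) : ∃ M, M ⊆ Q ∧ Link G A u t M := by
  have key := h.ind (P := fun v => (∃ M, M ⊆ Q ∧ Link G A u t M) ∨ v = u ∨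
      ∃ x ∈ Q \ A, G.Adj u x ∧ Rch G (Q \ A) x v) hu (Or.inr (Or.inl rfl)) (by
    rintro a _ b hb hab (r | rfl | ⟨x, x1, x2, x3⟩)
    · exact Or.inl r
    · by_cases bA : b ∈ A
      · rcases hA b hb bA with rfl | rfl
        · exact Or.inr (Or.inl rfl)
        · exact Or.inl ⟨∅, by simp, by simp, Or.inl ⟨hab, rfl⟩⟩
      · exact Or.inr (Or.inr ⟨b, ⟨hb, bA⟩, hab, Rch.refl _ _⟩)
    · by_cases bA : b ∈ A
      · rcases hA b hb bA with rfl | rfl
        · exact Or.inr (Or.inl rfl)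
        · exact Or.inl ⟨{v | Rch G (Q \ A) x v}, fun v hv => (Rch.mem hv x1).1,
            Set.disjoint_left.2 fun v hv => (Rch.mem hv x1).2, Or.inr ⟨conn_reach _ _,
              ⟨x, Rch.refl _ _, u, rfl, x2.symm⟩, a, x3, b, rfl, hab⟩⟩
      · exact Or.inr (Or.inr ⟨x, x1, x2, x3.tail hab ⟨hb, bA⟩⟩)) t ht
  rcases key with r | e | ⟨x, x1, -, x3⟩
  · exact r
  · exact absurd e.symm ne
  · exact absurd tA (x3.mem x1).2

theorem Good.links [Finite V] {q : ℕ} {S A Z X Y : Set V} (h : Tang G q S) (g : Good G S A Z)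
    (hq : Z.ncard ≤ q) (hX : X ⊆ Z) (hY : Y ⊆ Z) (hd : Disjoint X Y) (hc : Y.ncard = X.ncard) :
    ∃ M : V → Set V, (∀ u ∈ X, ∃ t ∈ Y, Link G A u t (M u)) ∧
      ∀ u ∈ X, ∀ v ∈ X, u ≠ v → Disjoint (M u) (M v) := by
  set B : Set V := Aᶜ ∪ (X ∪ Y) with hB
  have bA : ∀ v ∈ B, v ∈ A → v ∈ X ∨ v ∈ Y := fun v hv a => hv.resolve_left fun b => b a
  have hd' := Set.disjoint_left.1 hd
  obtain ⟨τ, ⟨Q, q1, q2⟩, im⟩ := menger (G := res G B) (A := X) (S := X) (A' := Set.univ) (S' := Y)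
    ⟨subset_rfl, fun u a b => absurd a b⟩ ⟨Set.subset_univ _, fun _ _ _ _ _ => trivial⟩
    ⟨Set.subset_univ _, fun _ _ a => a⟩ hc (by
    intro C Y₂ c n1 n2
    by_contra lt
    have e1 := Set.ncard_sdiff_add_ncard_of_subset hX
    have e2 := Set.ncard_sdiff_add_ncard_of_subset hY
    have e3 : (Y₂ ∩ B).ncard ≤ Y₂.ncard := Set.ncard_le_ncard Set.inter_subset_left
    have e4 := Set.ncard_union_le (Y₂ ∩ B) (Z \ X)
    have e5 := Set.ncard_union_le (Y₂ ∩ B) (Z \ Y)
    have c1 : Cut G (A ∪ C) (Y₂ ∩ B ∪ Z \ X) := by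
      refine ⟨Set.union_subset (fun v hv => Or.inr (c.sub hv.1)) fun v hv => Or.inl (g.cut.sub hv.1),
        fun u hu hz v huv => ?_⟩
      by_cases vA : v ∈ A
      · exact Or.inl vA
      have uB : u ∈ B ∧ u ∈ C := by
        by_cases uA : u ∈ A
        · have uX : u ∈ X := by
            by_contra uX
            exact vA (g.cut.cl u uA (fun a => hz (Or.inr ⟨a, uX⟩)) v huv)
          exact ⟨Or.inr (Or.inl uX), n1.sub uX⟩
        · exact ⟨Or.inl uA, hu.resolve_left uA⟩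
      exact Or.inr (c.cl u uB.2 (fun a => hz (Or.inl ⟨a, uB.1⟩)) v ⟨huv, uB.1, Or.inl vA⟩)
    have c2 : Cut G (A ∪ (Cᶜ ∪ Y₂)) (Y₂ ∩ B ∪ Z \ Y) := by
      refine ⟨Set.union_subset (fun v hv => Or.inr (Or.inr hv.1))
        fun v hv => Or.inl (g.cut.sub hv.1), fun u hu hz v huv => ?_⟩
      by_contra hv
      simp only [Set.mem_union, Set.mem_compl_iff, not_or, not_not] at hv
      have uB : u ∈ B := by
        by_cases uA : u ∈ A
        · by_contra uB
          exact hv.1 (g.cut.cl u uA (fun a => hz (Or.inr ⟨a, fun b => uB (Or.inr (Or.inr b))⟩)) v huv)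
        · exact Or.inl uA
      have uC : u ∈ C := c.cl v hv.2.1 hv.2.2 u ⟨huv.symm, Or.inl hv.1, uB⟩
      have uY : u ∉ Y₂ := fun a => hz (Or.inl ⟨a, uB⟩)
      rcases hu with a | a | a
      · rcases bA u uB a with b | b
        · exact hz (Or.inr ⟨hX b, hd' b⟩)
        · exact uY (n2.bd u b uC)
      · exact a uC
      · exact uY a
    have nz : ∀ v ∈ B, v ∈ A → v ∈ Z := fun v a b => (bA v a b).elim (@hX v) (@hY v)
    have b1 := (h.alt _ _ c1 (by omega)).resolve_left fun b => by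
      have := g.min _ _ c1 ⟨Set.subset_union_left, fun v hv a =>
        hv.elim (fun x => nz v x.2 a) fun x => x.1⟩ b
      omega
    have b2 := (h.alt _ _ c2 (by omega)).resolve_left fun b => by
      have := g.min _ _ c2 ⟨Set.subset_union_left, fun v hv a =>
        hv.elim (fun x => nz v x.2 a) fun x => x.1⟩ b
      omega
    obtain ⟨v, v1, v2, v3⟩ := g.big.three b1 b2
    rw [Set.notMem_compl_iff] at v2 v3
    exact v2.2 (Or.inl ⟨(v3.1.resolve_left v1).resolve_left fun a => a (v2.1.resolve_left v1),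
      Or.inl v1⟩))
  have key : ∀ u ∈ X, ∃ M, M ⊆ Q u ∧ Link G A u (τ u) M := fun u hu => by
    obtain ⟨a1, a2, a3, a4, -⟩ := q1 u hu
    have qB := a1.ind (P := fun v => v ∈ B) a2 (Or.inr (Or.inl hu)) fun _ _ _ _ x _ => x.2.2
    refine exists_link (a1.monoG fun _ _ x => x.1) a2 a3 (fun e => hd' hu (e ▸ a4))
      (fun v hv vA => ?_) (g.cut.sub (hY a4))
    rcases bA v (qB v hv) vA with b | b
    · left
      by_contra ne
      exact Set.disjoint_left.1 (q2 v b u hu ne) (q1 v b).2.1 hv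
    · obtain ⟨z, hz, rfl⟩ := im ▸ b
      right
      by_contra ne
      exact Set.disjoint_left.1 (q2 z hz u hu fun e => ne (e ▸ rfl)) (q1 z hz).2.2.1 hv
  choose! M m1 m2 using key
  exact ⟨M, fun u hu => ⟨τ u, (q1 u hu).2.2.2.1, m2 u hu⟩,
    fun u hu v hv ne => (q2 u hu v hv ne).mono (m1 u hu) (m1 v hv)⟩

/-- The conclusion. -/
def Res (G : SimpleGraph V) (k : ℕ) : Prop :=
  ∃ H : SimpleGraph (Fin (k + 2)), IsMinor H G ∧ 6 * k ≤ dn H + 2

theorem res_of_hubs {ι : Type} [Finite ι] [Nonempty ι] {K : ι → Set V} {P : Bool → Set V}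
    (k1 : ∀ i, Conn G (K i)) (k2 : ∀ i j, i ≠ j → Disjoint (K i) (K j)) (k3 : Conn G (⋃ i, K i))
    (p1 : ∀ b, Conn G (P b)) (p2 : Disjoint (P false) (P true)) (d : ∀ i b, Disjoint (K i) (P b))
    (t : ∀ i b, Touch G (K i) (P b)) : Res G (Nat.card ι) := by
  have : Fintype ι := Fintype.ofFinite ι
  let e : ι ⊕ Bool ≃ Fin (Nat.card ι + 2) := Finite.equivFinOfCardEq (by simp)
  let B : ι ⊕ Bool → Set V := Sum.elim K P
  have hB : ModelOn G Set.univ (B ∘ e.symm) := by
    refine ⟨fun j _ => ?_, fun i _ j _ ne => ?_⟩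
    · simp only [Function.comp_apply]
      rcases e.symm j with i | b
      exacts [k1 i, p1 b]
    · have ne' := e.symm.injective.ne ne
      simp only [Function.comp_apply]
      revert ne'
      rcases e.symm i with i | b <;> rcases e.symm j with j | c <;> intro ne'
      · exact k2 i j fun x => ne' (x ▸ rfl)
      · exact d i c
      · exact (d j b).symm
      · cases b <;> cases c
        exacts [absurd rfl ne', p2, p2.symm, absurd rfl ne']
  have hc : (tg G K).Connected := by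
    refine ⟨fun i j => ?_⟩
    obtain ⟨x, hx⟩ := (k1 i).1
    obtain ⟨y, hy⟩ := (k1 j).1
    refine k3.ind (P := fun v => ∀ j, v ∈ K j → (tg G K).Reachable i j) (Set.mem_iUnion.2 ⟨i, hx⟩)
      (fun j hj => ?_) (fun a ha b _ hab r j hj => ?_) y (Set.mem_iUnion.2 ⟨j, hy⟩) j hy
    · by_cases x : i = j
      · rw [x]
      · exact absurd hj (Set.disjoint_left.1 (k2 i j x) hx)
    · obtain ⟨l, hl⟩ := Set.mem_iUnion.1 ha
      by_cases x : l = j
      · exact x ▸ r l hl
      · exact (r l hl).trans (SimpleGraph.Adj.reachable ⟨x, a, hl, b, hj, hab⟩)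
  have h1 := hc.card_vert_le_card_edgeSet_add_one
  have h2 := dn_eq (tg G K)
  let f : {p : ι × ι | (tg G K).Adj p.1 p.2} ⊕ (ι × Bool) ⊕ (ι × Bool) →
      {p : Fin (Nat.card ι + 2) × Fin (Nat.card ι + 2) | (tg G (B ∘ e.symm)).Adj p.1 p.2} :=
    fun x => match x with
      | .inl p => ⟨(e (.inl p.1.1), e (.inl p.1.2)), by simpa [tg, B] using ⟨p.2.1, p.2.2⟩⟩
      | .inr (.inl p) => ⟨(e (.inl p.1), e (.inr p.2)), by simpa [tg, B] using t _ _⟩
      | .inr (.inr p) => ⟨(e (.inr p.2), e (.inl p.1)), by simpa [tg, B] using (t _ _).symm⟩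
  have hf : Function.Injective f := by
    rintro (⟨⟨a, b⟩, x⟩ | ⟨a, b⟩ | ⟨a, b⟩) (⟨⟨c, d⟩, y⟩ | ⟨c, d⟩ | ⟨c, d⟩) <;> simp [f] <;> tauto
  have h3 := Nat.card_le_card_of_injective f hf
  simp only [Nat.card_sum, Nat.card_prod, Nat.card_coe_set_eq, Nat.card_eq_fintype_card (α := Bool),
    Fintype.card_bool] at h3
  refine ⟨_, tg_minor hB, ?_⟩
  unfold dn at *
  omega

theorem res_of_meet {ι : Type} [Finite ι] [Nonempty ι] {A N : Set V} {M : ι → Set V}
    {P : Bool → Set V} (n1 : Conn G N) (n2 : Disjoint N A) (m1 : ∀ i, Conn G (M i))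
    (m2 : ∀ i j, i ≠ j → Disjoint (M i) (M j)) (m3 : ∀ i, Disjoint (M i) A)
    (m4 : ∀ i, ¬Disjoint (M i) N) (p1 : ∀ b, Conn G (P b)) (p2 : Disjoint (P false) (P true))
    (p3 : ∀ b, P b ⊆ A) (t : ∀ i b, Touch G (M i) (P b)) : Res G (Nat.card ι) := by
  obtain ⟨i₀⟩ := ‹Nonempty ι›
  obtain ⟨r, r1, r2⟩ := Set.not_disjoint_iff.1 (m4 i₀)
  have c : Conn G (N ∪ ⋃ i, M i) := Conn.of_cover (r := r) (Or.inl r2) fun v hv => by
    rcases hv with a | a
    · exact ⟨N, Set.subset_union_left, n1, r2, a⟩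
    · obtain ⟨i, hi⟩ := Set.mem_iUnion.1 a
      obtain ⟨x, x1, x2⟩ := Set.not_disjoint_iff.1 (m4 i)
      exact ⟨N ∪ M i, Set.union_subset_union_right _ (Set.subset_iUnion M i),
        n1.union (m1 i) x2 x1, Or.inl r2, Or.inr hi⟩
  obtain ⟨K, k1, k2, k3⟩ := voronoi G (N ∪ ⋃ i, M i) M m1
    (fun i => (Set.subset_iUnion M i).trans Set.subset_union_right) m2
    fun v hv => ⟨i₀, r, r1, c.2 r (Or.inl r2) v hv⟩
  have e : ⋃ i, K i = N ∪ ⋃ i, M i :=
    (Set.iUnion_subset fun i => (k1 i).2.1).antisymm fun v hv => Set.mem_iUnion.2 (k3 v hv)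
  have d : Disjoint (N ∪ ⋃ i, M i) A :=
    Set.disjoint_union_left.2 ⟨n2, Set.disjoint_iUnion_left.2 m3⟩
  exact res_of_hubs (fun i => (k1 i).2.2) k2 (e ▸ c) p1 p2 (fun i b => d.mono (k1 i).2.1 (p3 b))
    fun i b => (t i b).mono (k1 i).1 subset_rfl

/-- A segment of the path. -/
def Seg (T : ℕ → Set V) (x y : ℕ) : Set V := {v | ∃ p, x ≤ p ∧ p < y ∧ v ∈ T p}

section Path

variable {A : Set V} {w : ℕ} {a : ℕ → V} {T : ℕ → Set V}

theorem PM.seg_conn (m : PM G A w a T) {x y : ℕ} (h : x < y) (hy : y ≤ w) :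
    Conn G (Seg T x y) := by
  induction y, h using Nat.le_induction with
  | base =>
    have : Seg T x (x + 1) = T x := by
      ext v
      exact ⟨fun ⟨p, p1, p2, p3⟩ => (show p = x by omega) ▸ p3, fun hv => ⟨x, le_rfl, by omega, hv⟩⟩
    exact this ▸ m.conn x hy
  | succ y h ih =>
    have : Seg T x (y + 1) = Seg T x y ∪ T y := by
      ext v
      refine ⟨fun ⟨p, p1, p2, p3⟩ => ?_, ?_⟩
      · rcases Nat.lt_succ_iff_lt_or_eq.1 p2 with b | rfl
        exacts [Or.inl ⟨p, p1, b, p3⟩, Or.inr p3]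
      · rintro (⟨p, p1, p2, p3⟩ | hv)
        exacts [⟨p, p1, by omega, p3⟩, ⟨y, by omega, by omega, hv⟩]
    obtain ⟨y, rfl⟩ : ∃ z, y = z + 1 := ⟨y - 1, by omega⟩
    rw [this]
    exact (ih (by omega)).union_touch (m.conn _ hy) ((m.touch y hy).mono
      (fun v hv => ⟨y, by omega, by omega, hv⟩) subset_rfl)

theorem PM.seg_sub (m : PM G A w a T) {x y : ℕ} (hy : y ≤ w) : Seg T x y ⊆ A :=
  fun _ ⟨p, _, p2, p3⟩ => m.sub p (by omega) p3

theorem PM.seg_disj (m : PM G A w a T) {x y x' y' : ℕ} (h : y ≤ x') (hy : y' ≤ w) :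
    Disjoint (Seg T x y) (Seg T x' y') :=
  Set.disjoint_left.2 fun _ ⟨p, _, p2, p3⟩ ⟨r, r1, r2, r3⟩ =>
    Set.disjoint_left.1 (m.disj p (by omega) r (by omega) (by omega)) p3 r3

theorem PM.seg_mem (m : PM G A w a T) {x y p : ℕ} (h1 : x ≤ p) (h2 : p < y) (hy : y ≤ w) :
    a p ∈ Seg T x y := ⟨p, h1, h2, m.mem p (by omega)⟩

theorem PM.links [Finite V] {q : ℕ} {S : Set V} (m : PM G A w a T) (h : Tang G q S)
    (g : Good G S A (a '' Set.Iio w)) (hq : w ≤ q) {n x : ℕ} (f : ℕ → ℕ)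
    (f1 : Function.Injective f) (f2 : ∀ j < n, f j < w ∧ (f j < x ∨ x + n ≤ f j))
    (hx : x + n ≤ w) : ∃ M : ℕ → Set V,
      (∀ j < n, ∃ t ∈ Seg T x (x + n), Link G A (a (f j)) t (M j)) ∧
      ∀ i < n, ∀ j < n, i ≠ j → Disjoint (M i) (M j) := by
  have i1 : Set.InjOn (fun j => a (f j)) (Set.Iio n) := fun i hi j hj e =>
    f1 (m.inj (f2 i hi).1 (f2 j hj).1 e)
  have i2 : Set.InjOn (fun j => a (x + j)) (Set.Iio n) := fun i hi j hj e => by
    have hi' : i < n := hi
    have hj' : j < n := hj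
    have := m.inj (show x + i < w by omega) (show x + j < w by omega) e
    omega
  obtain ⟨M, m1, m2⟩ := g.links h (by rwa [m.card]) (X := (fun j => a (f j)) '' Set.Iio n)
    (Y := (fun j => a (x + j)) '' Set.Iio n)
    (by rintro _ ⟨j, hj, rfl⟩; exact ⟨_, (f2 j hj).1, rfl⟩)
    (by
      rintro _ ⟨j, hj, rfl⟩
      have hj' : j < n := hj
      exact ⟨x + j, show x + j < w by omega, rfl⟩)
    (Set.disjoint_left.2 (by
      rintro _ ⟨i, hi, rfl⟩ ⟨j, hj, e⟩
      have hj' : j < n := hj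
      have := m.inj (show x + j < w by omega) (f2 i hi).1 e
      have := (f2 i hi).2
      omega)) (by rw [i1.ncard_image, i2.ncard_image])
  refine ⟨fun j => M (a (f j)), fun j hj => ?_, fun i hi j hj ne =>
    m2 _ ⟨i, hi, rfl⟩ _ ⟨j, hj, rfl⟩ fun e => ne (i1 hi hj e)⟩
  obtain ⟨_, ⟨i, hi, rfl⟩, l⟩ := m1 _ ⟨j, hj, rfl⟩
  have hi' : i < n := hi
  exact ⟨_, m.seg_mem (by omega) (by omega) hx, l⟩

end Path

theorem Link.of_meet {A M N : Set V} {u t : V} (h : Link G A u t M) (hn : ¬Disjoint M N) :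
    Conn G M ∧ Touch G M {u} ∧ Touch G M {t} :=
  h.2.resolve_left fun e => hn (by simp [e.2])

theorem Link.hub {A M P : Set V} {u t : V} (h : Link G A u t M) (hP : Conn G P) (ht : t ∈ P) :
    Conn G (P ∪ M) ∧ Touch G {u} (P ∪ M) := by
  rcases h.2 with ⟨a, rfl⟩ | ⟨a, b, c⟩
  · exact ⟨by simpa using hP, u, rfl, t, Or.inl ht, a⟩
  · exact ⟨hP.union_touch a (c.symm.mono (by simpa using ht) subset_rfl),
      b.symm.mono subset_rfl Set.subset_union_right⟩

theorem hub_conn {ι : Type} {P : Set V} {M : ι → Set V} (hP : Conn G P)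
    (h : ∀ i, Conn G (P ∪ M i)) : Conn G (P ∪ ⋃ i, M i) := by
  obtain ⟨r, hr⟩ := hP.1
  refine Conn.of_cover (r := r) (Or.inl hr) fun v hv => ?_
  rcases hv with a | a
  · exact ⟨P, Set.subset_union_left, hP, hr, a⟩
  · obtain ⟨i, hi⟩ := Set.mem_iUnion.1 a
    exact ⟨P ∪ M i, Set.union_subset_union_right _ (Set.subset_iUnion M i), h i, Or.inl hr,
      Or.inr hi⟩

theorem pick {k t : ℕ} (F : ℕ → Finset ℕ) (s : ℕ) (hs : s ≤ k) (k0 : 0 < k)
    (h : ∀ j < s, (F j).card < k) :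
    ∃ x, t * (k * k) ≤ x ∧ x < (t + 1) * (k * k) ∧ ∀ j < s, x ∉ F j := by
  have h1 := Finset.card_biUnion_le_card_mul (Finset.range s) F (k - 1) fun j hj => by
    have := h j (Finset.mem_range.1 hj)
    omega
  obtain ⟨x, x1, x2⟩ := Finset.exists_mem_notMem_of_card_lt_card
    (s := (Finset.range s).biUnion F) (t := Finset.Ico (t * (k * k)) ((t + 1) * (k * k))) (by
      rw [Nat.card_Ico, add_mul, one_mul, Nat.add_sub_cancel_left]
      rw [Finset.card_range] at h1
      obtain ⟨k, rfl⟩ : ∃ j, k = j + 1 := ⟨k - 1, by omega⟩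
      rw [Nat.add_sub_cancel] at h1
      nlinarith)
  rw [Finset.mem_Ico] at x1
  exact ⟨x, x1.1, x1.2, fun j hj e => x2 (Finset.mem_biUnion.2 ⟨j, Finset.mem_range.2 hj, e⟩)⟩

theorem greedy {k : ℕ} (k0 : 0 < k) (R : ℕ → ℕ → Prop) [DecidableRel R]
    (h1 : ∀ l < k * (k * k), ((Finset.range (k * (k * k))).filter fun m => R m l).card < k)
    (h2 : ∀ m < k * (k * k), ((Finset.range (k * (k * k))).filter fun l => R m l).card < k)
    (t : ℕ) : t ≤ k → ∃ m l : ℕ → ℕ, (∀ i < t, (i * (k * k) ≤ m i ∧ m i < (i + 1) * (k * k)) ∧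
      i * (k * k) ≤ l i ∧ l i < (i + 1) * (k * k)) ∧ ∀ i < t, ∀ j < t, ¬R (m i) (l j) := by
  induction t with
  | zero => exact fun _ => ⟨id, id, by simp, by simp⟩
  | succ t ih =>
    intro ht
    obtain ⟨m, l, a1, a2⟩ := ih (by omega)
    have bd : ∀ i < t + 1, (i + 1) * (k * k) ≤ k * (k * k) := fun i hi =>
      Nat.mul_le_mul_right _ (by omega)
    obtain ⟨x, x1, x2, x3⟩ := pick (t := t)
      (fun j => (Finset.range (k * (k * k))).filter fun m => R m (l j)) t (by omega) k0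
      fun j hj => h1 _ ((a1 j hj).2.2.trans_le (bd j (by omega)))
    have b1 : ∀ i < t + 1, i * (k * k) ≤ Function.update m t x i ∧
        Function.update m t x i < (i + 1) * (k * k) := fun i hi => by
      rcases Nat.lt_succ_iff_lt_or_eq.1 hi with b | rfl
      · rw [Function.update_of_ne b.ne]; exact (a1 i b).1
      · rw [Function.update_self]; exact ⟨x1, x2⟩
    obtain ⟨y, y1, y2, y3⟩ := pick (t := t)
      (fun j => (Finset.range (k * (k * k))).filter fun l => R (Function.update m t x j) l)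
      (t + 1) ht k0 fun j hj => h2 _ ((b1 j hj).2.trans_le (bd j hj))
    refine ⟨Function.update m t x, Function.update l t y, fun i hi => ⟨b1 i hi, ?_⟩,
      fun i hi j hj r => ?_⟩
    · rcases Nat.lt_succ_iff_lt_or_eq.1 hi with b | rfl
      · rw [Function.update_of_ne b.ne]; exact (a1 i b).2
      · rw [Function.update_self]; exact ⟨y1, y2⟩
    · rcases Nat.lt_succ_iff_lt_or_eq.1 hj with b | rfl
      · rw [Function.update_of_ne b.ne] at r
        rcases Nat.lt_succ_iff_lt_or_eq.1 hi with c | rfl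
        · rw [Function.update_of_ne c.ne] at r
          exact a2 i c j b r
        · rw [Function.update_self] at r
          exact x3 j b (Finset.mem_filter.2
            ⟨Finset.mem_range.2 (x2.trans_le (bd i (by omega))), r⟩)
      · rw [Function.update_self] at r
        exact y3 i hi (Finset.mem_filter.2
          ⟨Finset.mem_range.2 (y2.trans_le (bd j (by omega))), r⟩)

theorem res_of_many {A N : Set V} {k n : ℕ} (k0 : 0 < k) {M : ℕ → Set V} {u : ℕ → V} {u₀ t₀ : V}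
    {P₀ P₁ : Set V} (n1 : Link G A u₀ t₀ N) (m1 : ∀ j < n, ∃ t ∈ P₀, Link G A (u j) t (M j))
    (m2 : ∀ i < n, ∀ j < n, i ≠ j → Disjoint (M i) (M j)) (u1 : ∀ j < n, u j ∈ P₁)
    (p0 : Conn G P₀) (p1 : Conn G P₁) (p2 : Disjoint P₀ P₁) (p3 : P₀ ⊆ A) (p4 : P₁ ⊆ A)
    {F : Finset ℕ} (hF : ∀ j ∈ F, j < n ∧ ¬Disjoint (M j) N) (hk : k ≤ F.card) : Res G k := by
  obtain ⟨J, j1, rfl⟩ := Finset.exists_subset_card_eq hk
  obtain ⟨j₀, j0⟩ := Finset.card_pos.1 k0
  have : Nonempty J := ⟨⟨j₀, j0⟩⟩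
  choose! t t1 t2 using m1
  have a := fun j : J => hF j (j1 j.2)
  have b := fun j : J => (t2 j (a j).1).of_meet (a j).2
  have := res_of_meet (ι := J) (M := fun j => M j) (P := fun b => bif b then P₁ else P₀)
    (n1.of_meet fun e => (a ⟨j₀, j0⟩).2 e.symm).1 n1.1 (fun j => (b j).1)
    (fun i j ne => m2 _ (a i).1 _ (a j).1 fun e => ne (Subtype.ext e))
    (fun j => (t2 j (a j).1).1) (fun j => (a j).2) (by rintro (_ | _); exacts [p0, p1]) p2
    (by rintro (_ | _); exacts [p3, p4]) (by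
      rintro j (_ | _)
      · exact (b j).2.2.mono subset_rfl (by simpa using t1 j (a j).1)
      · exact (b j).2.1.mono subset_rfl (by simpa using u1 j (a j).1))
  simpa using this

theorem res_of_tang [Finite V] {k : ℕ} (k0 : 0 < k) {S : Set V}
    (h : Tang G (4 * (k * (k * k))) S) : Res G k := by
  classical
  obtain ⟨A, a, T, g, m⟩ := exists_good h _ le_rfl
  have kk : 0 < k * k := Nat.mul_pos k0 k0
  have n0 : 0 < k * (k * k) := Nat.mul_pos k0 kk
  have gr := greedy k0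
  have bd : ∀ i < k, (i + 1) * (k * k) ≤ k * (k * k) := fun i hi => Nat.mul_le_mul_right _ hi
  generalize k * k = b at *
  generalize hn : k * b = n at *
  obtain ⟨M, m1, m2⟩ := m.links h g le_rfl (n := n) (x := 0) (fun j => n + 2 * j)
    (fun i j e => by simp only at e; omega) (fun j hj => by omega) (by omega)
  obtain ⟨L, l1, l2⟩ := m.links h g le_rfl (n := n) (x := 3 * n) (fun j => n + 2 * j + 1)
    (fun i j e => by simp only at e; omega) (fun j hj => by omega) (by omega)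
  have c0 := m.seg_conn (x := 0) (y := 0 + n) (by omega) (by omega)
  have c1 := m.seg_conn (x := n) (y := 3 * n) (by omega) (by omega)
  have c2 := m.seg_conn (x := 3 * n) (y := 3 * n + n) (by omega) (by omega)
  have s0 := m.seg_sub (x := 0) (y := 0 + n) (by omega)
  have s1 := m.seg_sub (x := n) (y := 3 * n) (by omega)
  have s2 := m.seg_sub (x := 3 * n) (y := 3 * n + n) (by omega)
  by_cases h1 : ∀ l < n, ((Finset.range n).filter fun j => ¬Disjoint (M j) (L l)).card < k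
  swap
  · push Not at h1
    obtain ⟨l, hl, h1⟩ := h1
    obtain ⟨t, -, l3⟩ := l1 l hl
    exact res_of_many k0 l3 m1 m2 (fun j hj => m.seg_mem (by omega) (by omega) (by omega)) c0 c1
      (m.seg_disj (by omega) (by omega)) s0 s1 (fun j hj => by simpa using hj) h1
  by_cases h2 : ∀ l < n, ((Finset.range n).filter fun j => ¬Disjoint (M l) (L j)).card < k
  swap
  · push Not at h2
    obtain ⟨l, hl, h2⟩ := h2
    obtain ⟨t, -, l3⟩ := m1 l hl
    exact res_of_many k0 l3 l1 l2 (fun j hj => m.seg_mem (by omega) (by omega) (by omega)) c2 c1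
      (m.seg_disj (by omega) (by omega)).symm s2 s1
      (fun j hj => by simpa [disjoint_comm] using hj) h2
  obtain ⟨μ, l, a1, a2⟩ := gr (fun i j => ¬Disjoint (M i) (L j)) h1 h2 k le_rfl
  have : Nonempty (Fin k) := ⟨⟨0, k0⟩⟩
  have lt : ∀ i : Fin k, i * b < (i + 1) * b := fun i => by nlinarith
  have bd' : ∀ i : Fin k, (i + 1) * b ≤ n := fun i => bd i i.2
  have a3 := fun i : Fin k => a1 i i.2
  have μn : ∀ i : Fin k, μ i < n := fun i => (a3 i).1.2.trans_le (bd' i)
  have ln : ∀ i : Fin k, l i < n := fun i => (a3 i).2.2.trans_le (bd' i)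
  choose! t t1 t2 using m1
  choose! r r1 r2 using l1
  have hM := fun i : Fin k => (t2 _ (μn i)).hub c0 (t1 _ (μn i))
  have hL := fun i : Fin k => (r2 _ (ln i)).hub c2 (r1 _ (ln i))
  have dM : Disjoint A (⋃ i : Fin k, M (μ i)) :=
    Set.disjoint_iUnion_right.2 fun i => (t2 _ (μn i)).1.symm
  have dL : Disjoint A (⋃ i : Fin k, L (l i)) :=
    Set.disjoint_iUnion_right.2 fun i => (r2 _ (ln i)).1.symm
  have sK : ∀ i : Fin k, Seg T (n + 2 * (i * b)) (n + 2 * ((i + 1) * b)) ⊆ A := fun i =>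
    m.seg_sub (by have := bd' i; omega)
  have e : ⋃ i : Fin k, Seg T (n + 2 * (i * b)) (n + 2 * ((i + 1) * b)) = Seg T n (3 * n) := by
    ext v
    simp only [Set.mem_iUnion]
    refine ⟨fun ⟨i, p, p1, p2, p3⟩ => ⟨p, by omega, by have := bd' i; omega, p3⟩,
      fun ⟨p, p1, p2, p3⟩ => ?_⟩
    have e1 := Nat.div_add_mod' ((p - n) / 2) b
    have e2 := Nat.mod_lt ((p - n) / 2) kk
    refine ⟨⟨(p - n) / 2 / b, (Nat.div_lt_iff_lt_mul kk).2 (by omega)⟩, p, ?_, ?_, p3⟩
    · simp only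
      omega
    · simp only [add_mul, one_mul]
      omega
  have := res_of_hubs (G := G) (ι := Fin k)
    (K := fun i => Seg T (n + 2 * (i * b)) (n + 2 * ((i + 1) * b)))
    (P := fun c => bif c then Seg T (3 * n) (3 * n + n) ∪ ⋃ i : Fin k, L (l i)
      else Seg T 0 (0 + n) ∪ ⋃ i : Fin k, M (μ i))
    (fun i => m.seg_conn (by have := lt i; omega) (by have := bd' i; omega))
    (fun i j ne => by
      rcases lt_or_gt_of_ne ne with c | c
      · have := Nat.mul_le_mul_right b (show (i : ℕ) + 1 ≤ j from c)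
        exact m.seg_disj (by omega) (by have := bd' j; omega)
      · have := Nat.mul_le_mul_right b (show (j : ℕ) + 1 ≤ i from c)
        exact (m.seg_disj (by omega) (by have := bd' i; omega)).symm)
    (e ▸ c1)
    (by
      rintro (_ | _)
      exacts [hub_conn c0 fun i => (hM i).1, hub_conn c2 fun i => (hL i).1])
    (Set.disjoint_union_left.2 ⟨Set.disjoint_union_right.2
      ⟨m.seg_disj (by omega) (by omega), dL.mono_left s0⟩, Set.disjoint_union_right.2
      ⟨(dM.mono_left s2).symm, Set.disjoint_iUnion_left.2 fun i => Set.disjoint_iUnion_right.2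
        fun j => not_not.1 (a2 i i.2 j j.2)⟩⟩)
    (by
      rintro i (_ | _)
      · exact Set.disjoint_union_right.2 ⟨(m.seg_disj (by omega) (by have := bd' i; omega)).symm,
          dM.mono_left (sK i)⟩
      · exact Set.disjoint_union_right.2 ⟨m.seg_disj (by have := bd' i; omega) (by omega),
          dL.mono_left (sK i)⟩)
    (by
      rintro i (_ | _)
      · refine (hM i).2.mono (Set.singleton_subset_iff.2 ?_)
          (Set.union_subset_union_right _ (Set.subset_iUnion (fun i : Fin k => M (μ i)) i))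
        have := a3 i
        have := bd' i
        exact m.seg_mem (by omega) (by omega) (by omega)
      · refine (hL i).2.mono (Set.singleton_subset_iff.2 ?_)
          (Set.union_subset_union_right _ (Set.subset_iUnion (fun i : Fin k => L (l i)) i))
        have := a3 i
        have := bd' i
        exact m.seg_mem (by omega) (by omega) (by omega))
  simpa using this

theorem itemC : ItemC := by
  have key : ∀ k, 0 < k → ∃ W : ℕ, ∀ (V : Type) [Finite V] [DecidableEq V] (G : SimpleGraph V),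
      BW G W ∨ Res G k := fun k k0 => ⟨_, fun V _ _ G => by
    by_cases h : Sep G (4 * (k * (k * k)))
    · exact Or.inl (bw_of_sep h)
    · obtain ⟨S, hS⟩ := exists_tang h
      exact Or.inr (res_of_tang k0 hS)⟩
  intro k
  rcases Nat.eq_zero_or_pos k with rfl | k0
  · obtain ⟨W, h⟩ := key 1 one_pos
    refine ⟨W, fun V _ _ G => (h V G).imp_right fun ⟨H, h1, _⟩ => ⟨⊥, IsMinor.trans ?_ h1, by simp⟩⟩
    exact IsMinor.of_inj Fin.castSucc (Fin.castSucc_injective _) (by simp)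
  · exact key k k0

end Pool.Agent.MP_c60df9_co.H19
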